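import Pool.Agent.NH21.Unav.Final

/-!
# Classification of the two-element unavoidable sets of partial words

`X_{m|n} = {a⋄^{m₁}a⋯⋄^{m_k}a, b⋄^{n₁}b⋯⋄^{n_l}b}`; in terms of the gaps `D = (m_i + 1)`,
`E = (n_j + 1)` and of the 2-adic valuation `v`, the set is unavoidable exactly when `k = 0`, or
`l = 0`, or, up to exchanging `D` and `E`,

* `D = (d)`, `E = (p)`, `v(d) ≠ v(p)`;
* `D = (d)`, `E = (p, r)` or `(r, p)` with `r = p + d` or `d = 2p + r`, `v(p) < v(d)`, or
  `(p, r) = (d - e, d + e)` with a proper divisor `e` of `d`, or `(d; p, r) = (7e; 2e, 4e)`;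
* `D = (d)`, `E = (d + e, e, d - 2e)` or its reverse, with `d / e` an even integer at least `4`.

Avoiding words are rotation words (codings of the rotation `x ↦ K x mod N` by an interval).
-/

set_option autoImplicit false

namespace Pool.Agent.NH21.Withdrawn.TwoElement

open NH21.Unav

/-- The complete answer to Q1. -/
theorem classification (m n : List ℕ) :
    Unavoidable {spaced true m, spaced false n} ↔ Listed (m.map (· + 1)) (n.map (· + 1)) :=
  final m n

end Pool.Agent.NH21.Withdrawn.TwoElement
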